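import Pool.Agent.H487.GP.Stm

/-!
# Project GP (helper487), task THETA: Poisson summation for the wrapped Gaussian law

Proof plan by helper487.
-/

set_option autoImplicit false

open MeasureTheory ProbabilityTheory Set

namespace Pool.Agent.H484.GP.Theta

open Pool.Agent.H487.GP (SS nu vv S_THETA)

/-! ### Poisson summation -/

theorem summable_sq_nat {c : ℝ} (hc : 0 < c) : Summable fun n : ℕ => Real.exp (-c * (n : ℝ) ^ 2) := by
  have hg : Summable fun n : ℕ => (Real.exp (-c)) ^ n :=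
    summable_geometric_of_lt_one (Real.exp_pos _).le (by
      rw [← Real.exp_zero]
      exact Real.exp_lt_exp.2 (by linarith))
  refine Summable.of_nonneg_of_le (fun n => (Real.exp_pos _).le) (fun n => ?_) hg
  rw [← Real.exp_nat_mul]
  refine Real.exp_le_exp.2 ?_
  have h1 : (n : ℝ) ≤ (n : ℝ) ^ 2 := by
    rcases Nat.eq_zero_or_pos n with h | h
    · simp [h]
    · have h2 : (1 : ℝ) ≤ n := by exact_mod_cast h
      nlinarith
  nlinarith

theorem summable_sq_int {c : ℝ} (hc : 0 < c) : Summable fun n : ℤ => Real.exp (-c * (n : ℝ) ^ 2) := by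
  refine Summable.of_nat_of_neg ?_ ?_
  · have h := summable_sq_nat hc
    simpa using h
  · have h := summable_sq_nat hc
    simpa using h

theorem summable_shift {c : ℝ} (hc : 0 < c) (y : ℝ) :
    Summable fun n : ℤ => Real.exp (-c * ((n : ℝ) - y) ^ 2) := by
  have h := (summable_sq_int (half_pos hc)).mul_left (Real.exp (c * y ^ 2))
  refine Summable.of_nonneg_of_le (fun n => (Real.exp_pos _).le) (fun n => ?_) h
  rw [← Real.exp_add]
  refine Real.exp_le_exp.2 ?_
  nlinarith [sq_nonneg ((n : ℝ) - 2 * y)]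

/-- the real form of the Poisson summation of the Gaussian -/
theorem poisson_real {s : ℝ} (hs : 0 < s) (y : ℝ) :
    ∑' n : ℤ, Real.exp (-(2 * s) * (n : ℝ) ^ 2) * Real.cos (2 * Real.pi * n * y) =
      1 / √(2 * s / Real.pi) *
        ∑' n : ℤ, Real.exp (-(Real.pi ^ 2 / (2 * s)) * ((n : ℝ) - y) ^ 2) := by
  have hpi := Real.pi_pos
  have hπ0 : ((Real.pi : ℝ) : ℂ) ≠ 0 := by exact_mod_cast hpi.ne'
  have hs0 : ((s : ℝ) : ℂ) ≠ 0 := by exact_mod_cast hs.ne'
  have ha : 0 < 2 * s / Real.pi := by positivity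
  have h := Complex.tsum_exp_neg_quadratic (a := ((2 * s / Real.pi : ℝ) : ℂ))
    (by rw [Complex.ofReal_re]; exact ha) (Complex.I * (y : ℂ))
  -- the left side
  have hterm : ∀ n : ℤ, Complex.exp (-(Real.pi : ℂ) * ((2 * s / Real.pi : ℝ) : ℂ) * (n : ℂ) ^ 2 +
      2 * (Real.pi : ℂ) * (Complex.I * (y : ℂ)) * (n : ℂ)) =
      ((Real.exp (-(2 * s) * (n : ℝ) ^ 2) : ℝ) : ℂ) *
        Complex.exp (((2 * Real.pi * n * y : ℝ) : ℂ) * Complex.I) := by
    intro n
    rw [Complex.ofReal_exp, ← Complex.exp_add]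
    congr 1
    push_cast
    field_simp
  have hre : ∀ n : ℤ, (((Real.exp (-(2 * s) * (n : ℝ) ^ 2) : ℝ) : ℂ) *
      Complex.exp (((2 * Real.pi * n * y : ℝ) : ℂ) * Complex.I)).re =
      Real.exp (-(2 * s) * (n : ℝ) ^ 2) * Real.cos (2 * Real.pi * n * y) := by
    intro n
    rw [Complex.re_ofReal_mul, Complex.exp_ofReal_mul_I_re]
  have hsum : Summable fun n : ℤ => ((Real.exp (-(2 * s) * (n : ℝ) ^ 2) : ℝ) : ℂ) *
      Complex.exp (((2 * Real.pi * n * y : ℝ) : ℂ) * Complex.I) := by
    refine Summable.of_norm ?_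
    have h1 := summable_sq_int (by positivity : 0 < 2 * s)
    refine h1.congr fun n => ?_
    rw [norm_mul, Complex.norm_exp_ofReal_mul_I, mul_one, Complex.norm_real,
      Real.norm_of_nonneg (Real.exp_pos _).le]
  -- the right side
  have hterm2 : ∀ n : ℤ, Complex.exp (-(Real.pi : ℂ) / ((2 * s / Real.pi : ℝ) : ℂ) *
      ((n : ℂ) + Complex.I * (Complex.I * (y : ℂ))) ^ 2) =
      ((Real.exp (-(Real.pi ^ 2 / (2 * s)) * ((n : ℝ) - y) ^ 2) : ℝ) : ℂ) := by
    intro n
    rw [Complex.ofReal_exp]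
    congr 1
    have e : (n : ℂ) + Complex.I * (Complex.I * (y : ℂ)) = (n : ℂ) - y := by
      rw [← mul_assoc, Complex.I_mul_I]
      ring
    rw [e]
    push_cast
    field_simp
  have hroot : 1 / ((2 * s / Real.pi : ℝ) : ℂ) ^ (1 / 2 : ℂ) =
      ((1 / √(2 * s / Real.pi) : ℝ) : ℂ) := by
    have h1 := Complex.ofReal_cpow ha.le (1 / 2 : ℝ)
    have h2 : ((1 / 2 : ℝ) : ℂ) = 1 / 2 := by norm_num
    rw [h2] at h1
    rw [← h1, ← Real.sqrt_eq_rpow, Complex.ofReal_div 1, Complex.ofReal_one]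
  simp only [hterm, hterm2] at h
  rw [hroot, ← Complex.ofReal_tsum, ← Complex.ofReal_mul] at h
  have h2 := congrArg Complex.re h
  rw [Complex.ofReal_re, Complex.re_tsum hsum] at h2
  simp only [hre] at h2
  exact h2

/-- the sum over the natural numbers -/
theorem split {s : ℝ} (hs : 0 < s) (y : ℝ) :
    ∑' n : ℤ, Real.exp (-(2 * s) * (n : ℝ) ^ 2) * Real.cos (2 * Real.pi * n * y) =
      1 + 2 * ∑' n : ℕ, Real.exp (-(2 * s) * ((n : ℝ) + 1) ^ 2) *
        Real.cos (2 * Real.pi * (n + 1) * y) := by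
  set f : ℤ → ℝ := fun n => Real.exp (-(2 * s) * (n : ℝ) ^ 2) * Real.cos (2 * Real.pi * n * y)
    with hf
  have hs1 : Summable fun n : ℕ => f (n : ℤ) := by
    refine Summable.of_norm_bounded (summable_sq_nat (by positivity : 0 < 2 * s)) fun n => ?_
    simp only [hf]
    rw [norm_mul, Real.norm_of_nonneg (Real.exp_pos _).le, Real.norm_eq_abs]
    have h1 := Real.abs_cos_le_one (2 * Real.pi * ((n : ℤ) : ℝ) * y)
    have h2 := (Real.exp_pos (-(2 * s) * (((n : ℤ) : ℝ)) ^ 2)).le
    calc _ ≤ Real.exp (-(2 * s) * (((n : ℤ) : ℝ)) ^ 2) * 1 := mul_le_mul_of_nonneg_left h1 h2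
      _ = _ := by rw [mul_one, Int.cast_natCast]
  have hev : ∀ n : ℤ, f (-n) = f n := by
    intro n
    simp only [hf]
    push_cast
    rw [neg_sq]
    congr 1
    rw [← Real.cos_neg]
    congr 1
    ring
  have hs2 : Summable fun n : ℕ => f ((n : ℤ) + 1) := by
    have h := (summable_nat_add_iff 1).2 hs1
    simpa using h
  have hs3 : Summable fun n : ℕ => f (-((n : ℤ) + 1)) := by
    simpa only [hev] using hs2
  rw [tsum_of_nat_of_neg_add_one hs1 hs3, hs1.tsum_eq_zero_add]
  simp only [hev]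
  have h0 : f ((0 : ℕ) : ℤ) = 1 := by
    simp only [hf]
    simp
  have h1 : ∀ n : ℕ, f ((n + 1 : ℕ) : ℤ) = Real.exp (-(2 * s) * ((n : ℝ) + 1) ^ 2) *
      Real.cos (2 * Real.pi * (n + 1) * y) := by
    intro n
    simp only [hf]
    push_cast
    rfl
  have h2 : ∀ n : ℕ, f ((n : ℤ) + 1) = Real.exp (-(2 * s) * ((n : ℝ) + 1) ^ 2) *
      Real.cos (2 * Real.pi * (n + 1) * y) := by
    intro n
    simp only [hf]
    push_cast
    rfl
  rw [h0]
  simp only [h1, h2]
  ring

/-! ### the measure -/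

theorem SS_eq (a b : ℝ) : SS a b = ⋃ j : ℤ, Icc (Real.pi * (j - b)) (Real.pi * (j - a)) := by
  have hpi := Real.pi_pos
  ext x
  rw [mem_iUnion]
  refine exists_congr fun j => ?_
  rw [mem_Icc]
  have e1 : a ≤ j - x / Real.pi ↔ x ≤ Real.pi * (j - a) := by
    rw [le_sub_comm, div_le_iff₀ hpi, mul_comm]
  have e2 : j - x / Real.pi ≤ b ↔ Real.pi * (j - b) ≤ x := by
    rw [sub_le_comm, le_div_iff₀ hpi, mul_comm]
  rw [e1, e2, and_comm]

theorem meas_SS {s : NNReal} (hs : s ≠ 0) {a b : ℝ} (hab : a ≤ b) (hb : b ≤ a + 1) :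
    gaussianReal 0 s (SS a b) = ∫⁻ y in Ioc a b, ∑' j : ℤ,
      ENNReal.ofReal (Real.pi * gaussianPDFReal 0 s (Real.pi * j - Real.pi * y)) := by
  have hpi := Real.pi_pos
  have := nullSingletonClass_gaussianReal (μ := 0) hs
  have hd : ∀ i j : ℤ, i < j → AEDisjoint (gaussianReal 0 s)
      (Icc (Real.pi * (i - b)) (Real.pi * (i - a))) (Icc (Real.pi * (j - b)) (Real.pi * (j - a))) := by
    intro i j hij
    have h1 : ((i : ℤ) : ℝ) + 1 ≤ j := by exact_mod_cast hij
    have hsub : Icc (Real.pi * (i - b)) (Real.pi * (i - a)) ∩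
        Icc (Real.pi * (j - b)) (Real.pi * (j - a)) ⊆ {Real.pi * (i - a)} := by
      rintro x ⟨⟨-, hx1⟩, hx2, -⟩
      have h2 : Real.pi * (i - a) ≤ Real.pi * (j - b) :=
        mul_le_mul_of_nonneg_left (by linarith) hpi.le
      exact le_antisymm hx1 (h2.trans hx2)
    exact measure_mono_null hsub (measure_singleton _)
  rw [SS_eq, measure_iUnion₀]
  · rw [lintegral_tsum]
    · refine tsum_congr fun j => ?_
      rw [gaussianReal_apply_eq_integral 0 hs, integral_Icc_eq_integral_Ioc,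
        ← intervalIntegral.integral_of_le
          (mul_le_mul_of_nonneg_left (by linarith) hpi.le : Real.pi * (j - b) ≤ Real.pi * (j - a))]
      have h1 := intervalIntegral.integral_comp_sub_mul (a := a) (b := b)
        (gaussianPDFReal 0 s) hpi.ne' (Real.pi * j)
      have h2 : ∫ x in (Real.pi * (j - b))..(Real.pi * (j - a)), gaussianPDFReal 0 s x =
          ∫ y in a..b, Real.pi * gaussianPDFReal 0 s (Real.pi * j - Real.pi * y) := by
        rw [intervalIntegral.integral_const_mul, h1, smul_eq_mul, ← mul_assoc,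
          mul_inv_cancel₀ hpi.ne', one_mul, mul_sub, mul_sub]
      rw [h2, intervalIntegral.integral_of_le hab, ofReal_integral_eq_lintegral_ofReal]
      · have h3 : Continuous fun y : ℝ =>
            Real.pi * gaussianPDFReal 0 s (Real.pi * j - Real.pi * y) := by
          unfold gaussianPDFReal
          fun_prop
        exact (h3.integrableOn_Icc (a := a) (b := b)).mono_set Ioc_subset_Icc_self
      · exact Filter.Eventually.of_forall fun y =>
          mul_nonneg hpi.le (gaussianPDFReal_nonneg _ _ _)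
    · intro j
      have h3 : Measurable fun y : ℝ =>
          Real.pi * gaussianPDFReal 0 s (Real.pi * j - Real.pi * y) := by
        unfold gaussianPDFReal
        fun_prop
      exact h3.ennreal_ofReal.aemeasurable
  · intro i j hij
    rcases lt_or_gt_of_ne hij with h | h
    · exact hd i j h
    · exact (hd j i h).symm
  · exact fun j => measurableSet_Icc.nullMeasurableSet

theorem theta_proof : S_THETA := by
  intro v hv a b hab hb
  have hpi := Real.pi_pos
  have hA : 1 < 1 + v ^ 2 / 4 := by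
    have : 0 < v ^ 2 := by positivity
    linarith
  have hA0 : 0 < 1 + v ^ 2 / 4 := by linarith
  have hv0 : 0 < vv v := by
    unfold vv
    have := Real.log_pos hA
    linarith
  set s : NNReal := (vv v).toNNReal with hs
  have hs0 : s ≠ 0 := by
    rw [hs]
    exact (Real.toNNReal_pos.2 hv0).ne'
  have hsv : (s : ℝ) = vv v := by
    rw [hs]
    exact Real.coe_toNNReal _ hv0.le
  set Θ : ℝ → ℝ := fun x => 1 + 2 * ∑' n : ℕ, Real.cos (2 * Real.pi * (n + 1) * x) /
    (1 + v ^ 2 / 4) ^ ((n + 1) ^ 2) with hΘ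
  -- the exponentials
  have hexp : ∀ n : ℕ, Real.exp (-(2 * vv v) * ((n : ℝ) + 1) ^ 2) =
      ((1 + v ^ 2 / 4) ^ ((n + 1) ^ 2))⁻¹ := by
    intro n
    have e1 : -(2 * vv v) * ((n : ℝ) + 1) ^ 2 =
        -(((n + 1) ^ 2 : ℕ) * Real.log (1 + v ^ 2 / 4)) := by
      unfold vv
      push_cast
      ring
    rw [e1, Real.exp_neg, Real.exp_nat_mul, Real.exp_log hA0]
  have hΘ2 : ∀ x, Θ x = 1 + 2 * ∑' n : ℕ, Real.exp (-(2 * vv v) * ((n : ℝ) + 1) ^ 2) *
      Real.cos (2 * Real.pi * (n + 1) * x) := by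
    intro x
    simp only [hΘ, hexp]
    congr 2
    refine tsum_congr fun n => ?_
    rw [div_eq_inv_mul]
  -- the pointwise identity
  have hG : ∀ (j : ℤ) (y : ℝ), Real.pi * gaussianPDFReal 0 s (Real.pi * j - Real.pi * y) =
      1 / √(2 * vv v / Real.pi) *
        Real.exp (-(Real.pi ^ 2 / (2 * vv v)) * ((j : ℝ) - y) ^ 2) := by
    intro j y
    rw [gaussianPDFReal_def]
    simp only [sub_zero, hsv]
    rw [← mul_assoc]
    congr 1
    · have h1 : √(2 * Real.pi * vv v) = Real.pi * √(2 * vv v / Real.pi) := by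
        have e : 2 * Real.pi * vv v = Real.pi ^ 2 * (2 * vv v / Real.pi) := by
          field_simp
        rw [e, Real.sqrt_mul (by positivity), Real.sqrt_sq hpi.le]
      rw [h1, mul_inv, ← mul_assoc, mul_inv_cancel₀ hpi.ne', one_mul, one_div]
    · congr 1
      field_simp
  have hGs : ∀ y : ℝ, Summable fun j : ℤ =>
      Real.pi * gaussianPDFReal 0 s (Real.pi * j - Real.pi * y) := by
    intro y
    simp only [hG]
    exact (summable_shift (by positivity) y).mul_left _
  have hG0 : ∀ (y : ℝ) (j : ℤ),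
      0 ≤ Real.pi * gaussianPDFReal 0 s (Real.pi * j - Real.pi * y) :=
    fun y j => mul_nonneg hpi.le (gaussianPDFReal_nonneg _ _ _)
  have hpt : ∀ y : ℝ, ∑' j : ℤ, Real.pi * gaussianPDFReal 0 s (Real.pi * j - Real.pi * y) =
      Θ y := by
    intro y
    simp only [hG]
    rw [tsum_mul_left, ← poisson_real hv0, split hv0, hΘ2]
  have hΘ0 : ∀ y, 0 ≤ Θ y := by
    intro y
    rw [← hpt]
    exact tsum_nonneg (hG0 y)
  -- continuity
  have hcont : Continuous Θ := by
    have h1 : Continuous fun x : ℝ => ∑' n : ℕ, Real.exp (-(2 * vv v) * ((n : ℝ) + 1) ^ 2) *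
        Real.cos (2 * Real.pi * (n + 1) * x) := by
      refine continuous_tsum (u := fun n : ℕ => Real.exp (-(2 * vv v) * ((n : ℝ) + 1) ^ 2))
        (fun n => by fun_prop) ?_ fun n x => ?_
      · have h := (summable_nat_add_iff 1).2 (summable_sq_nat (by positivity : 0 < 2 * vv v))
        simpa using h
      · rw [norm_mul, Real.norm_of_nonneg (Real.exp_pos _).le, Real.norm_eq_abs]
        calc _ ≤ Real.exp (-(2 * vv v) * ((n : ℝ) + 1) ^ 2) * 1 :=
              mul_le_mul_of_nonneg_left (Real.abs_cos_le_one _) (Real.exp_pos _).le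
          _ = _ := mul_one _
    have h2 : Θ = fun x => 1 + 2 * ∑' n : ℕ, Real.exp (-(2 * vv v) * ((n : ℝ) + 1) ^ 2) *
        Real.cos (2 * Real.pi * (n + 1) * x) := funext hΘ2
    rw [h2]
    exact continuous_const.add (continuous_const.mul h1)
  -- the conclusion
  have hmeas : gaussianReal 0 s (SS a b) = ∫⁻ y in Ioc a b, ENNReal.ofReal (Θ y) := by
    rw [meas_SS hs0 hab hb]
    refine lintegral_congr fun y => ?_
    rw [← ENNReal.ofReal_tsum_of_nonneg (hG0 y) (hGs y), hpt]
  show (gaussianReal 0 s).real (SS a b) = ∫ x in a..b, Θ x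
  rw [measureReal_def, hmeas, intervalIntegral.integral_of_le hab,
    integral_eq_lintegral_of_nonneg_ae (Filter.Eventually.of_forall hΘ0)
      hcont.aestronglyMeasurable]

end Pool.Agent.H484.GP.Theta
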